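import Pool.Agent.Helper92.Ru.GoalsS

/-! Packet HHLB (S5) for helper92's MP_d1d051_nt. -/

set_option autoImplicit false

open NumberField

namespace Pool.Agent.Helper8.Ru

open Pool.Agent.Helper92.Ru

theorem hhlb : HHLB := by
  intro k _ _ T ι _ _ _ A hA
  classical
  set a : SP k T → ℝ := fun v => 1 + ∑ i, ∑ j, nS v ((A v)⁻¹ i j) with ha
  have hapos : ∀ v, 0 < a v := fun v => by
    have : 0 ≤ ∑ i, ∑ j, nS v ((A v)⁻¹ i j) :=
      Finset.sum_nonneg fun i _ => Finset.sum_nonneg fun j _ => nS_nonneg v _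
    simp only [ha]; linarith
  have haent : ∀ v i j, nS v ((A v)⁻¹ i j) ≤ a v := fun v i j => by
    have h1 : nS v ((A v)⁻¹ i j) ≤ ∑ j, nS v ((A v)⁻¹ i j) :=
      Finset.single_le_sum (f := fun j => nS v ((A v)⁻¹ i j)) (fun j _ => nS_nonneg v _)
        (Finset.mem_univ j)
    have h2 : ∑ j, nS v ((A v)⁻¹ i j) ≤ ∑ i, ∑ j, nS v ((A v)⁻¹ i j) :=
      Finset.single_le_sum (f := fun i => ∑ j, nS v ((A v)⁻¹ i j))
        (fun i _ => Finset.sum_nonneg fun j _ => nS_nonneg v _) (Finset.mem_univ i)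
    simp only [ha]; linarith
  set N : ℝ := (Fintype.card ι : ℝ) with hN
  have hNpos : 0 < N := by
    have := Fintype.card_pos (α := ι)
    simp only [hN]; exact_mod_cast this
  set D : ℝ := ∏ v : SP k T, (N ^ 2 * a v) with hD
  have hDpos : 0 < D := Finset.prod_pos fun v _ => mul_pos (pow_pos hNpos 2) (hapos v)
  refine ⟨D⁻¹, inv_pos.2 hDpos, ?_⟩
  intro w hw x hx hx0
  obtain ⟨i0, hi0⟩ : ∃ i, x i ≠ 0 := by
    by_contra h
    push Not at h
    exact hx0 (funext h)
  have key : ∀ v : SP k T, nS v (x i0) ≤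
      (N ^ 2 * a v) * ((⨆ i, nS v ((A v).mulVec x i) / w v i) * (⨆ i, w v i)) := by
    intro v
    have hx1 : x i0 = ∑ j, (A v)⁻¹ i0 j * (A v).mulVec x j := by
      have h1 : (A v)⁻¹.mulVec ((A v).mulVec x) = x := by
        rw [Matrix.mulVec_mulVec, Matrix.nonsing_inv_mul _ (Ne.isUnit (hA v)),
          Matrix.one_mulVec]
      have h2 := congrFun h1 i0
      simp only [Matrix.mulVec, dotProduct] at h2 ⊢
      exact h2.symm
    set S := ⨆ i, nS v ((A v).mulVec x i) / w v i with hS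
    set W := ⨆ i, w v i with hW
    have hSle : ∀ j, nS v ((A v).mulVec x j) / w v j ≤ S := fun j =>
      le_ciSup (f := fun j => nS v ((A v).mulVec x j) / w v j) (Set.finite_range _).bddAbove j
    have hWle : ∀ j, w v j ≤ W := fun j =>
      le_ciSup (f := fun j => w v j) (Set.finite_range _).bddAbove j
    have hb : ∀ j, nS v ((A v).mulVec x j) ≤ S * W := fun j => by
      have h1 : nS v ((A v).mulVec x j) = nS v ((A v).mulVec x j) / w v j * w v j := by
        rw [div_mul_cancel₀]; exact (hw v j).ne'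
      rw [h1]
      have h0 : 0 ≤ nS v ((A v).mulVec x j) / w v j := div_nonneg (nS_nonneg v _) (hw v j).le
      exact mul_le_mul (hSle j) (hWle j) (hw v j).le (h0.trans (hSle j))
    have h3 := nS_sum_le v Finset.univ (fun j => (A v)⁻¹ i0 j * (A v).mulVec x j)
      (a v * (S * W)) (fun j _ => by
        rw [nS_mul]
        exact mul_le_mul (haent v i0 j) (hb j) (nS_nonneg v _) (hapos v).le)
    rw [← hx1] at h3
    calc nS v (x i0) ≤ ((Finset.univ : Finset ι).card : ℝ) ^ 2 * (a v * (S * W)) := h3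
      _ = (N ^ 2 * a v) * (S * W) := by
          rw [Finset.card_univ]; ring
  have h1 : 1 ≤ ∏ v : SP k T, nS v (x i0) := one_le_prod_nS (hx i0) hi0
  have h2 : ∏ v : SP k T, nS v (x i0) ≤ ∏ v : SP k T,
      ((N ^ 2 * a v) * ((⨆ i, nS v ((A v).mulVec x i) / w v i) * (⨆ i, w v i))) :=
    Finset.prod_le_prod (fun v _ => nS_nonneg v _) (fun v _ => key v)
  have h4 : ∏ v : SP k T,
      ((N ^ 2 * a v) * ((⨆ i, nS v ((A v).mulVec x i) / w v i) * (⨆ i, w v i))) =
      D * (HH A w x * ∏ v, ⨆ i, w v i) := by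
    rw [hD, HH, ← Finset.prod_mul_distrib (f := fun v => ⨆ i, nS v ((A v).mulVec x i) / w v i),
      ← Finset.prod_mul_distrib]
  have h3 : 1 ≤ D * (HH A w x * ∏ v, ⨆ i, w v i) := (h1.trans h2).trans_eq h4
  calc D⁻¹ = D⁻¹ * 1 := (mul_one _).symm
    _ ≤ D⁻¹ * (D * (HH A w x * ∏ v, ⨆ i, w v i)) :=
        mul_le_mul_of_nonneg_left h3 (inv_pos.2 hDpos).le
    _ = HH A w x * ∏ v, ⨆ i, w v i := by
        rw [← mul_assoc, inv_mul_cancel₀ hDpos.ne', one_mul]

end Pool.Agent.Helper8.Ru
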